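import Pool.Agent.helper60.DA.SpecV

/-!
# Row dv:F14: the sum at `x = -1/4` modulo `p^2`
-/

set_option autoImplicit false

namespace Pool.Agent.helper60.DA

open Polynomial Finset Pool.Agent.helper60.DK

theorem F14_aux_red_eval (p : ℕ) (V : ℤ[X]) (a : ℤ) :
    (red p V).eval (a : ZMod p) = ((V.eval a : ℤ) : ZMod p) := by
  unfold red
  simp [eval_intCast_map]

/-- the value of `S1` at `t` with `4 t = -1` -/
theorem F14_aux_S1 (p : ℕ) [Fact p.Prime] (u : ZMod (p ^ 2)) (hu : 108 * u = 1) (t : ℤ)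
    (ht : 4 * (t : ZMod (p ^ 2)) = -1) :
    64 ^ hh p * (((S1 p).eval t : ℤ) : ZMod (p ^ 2)) =
      16 ^ hh p * 27 ^ hh p * ∑ k ∈ range (hh p + 1), (ak k : ZMod (p ^ 2)) * u ^ k := by
  unfold S1 Hh
  rw [eval_finsetSum, Int.cast_sum, Finset.mul_sum, Finset.mul_sum]
  refine Finset.sum_congr rfl fun k hk => ?_
  have hkh : k ≤ hh p := by
    rw [Finset.mem_range] at hk
    omega
  obtain ⟨j, hj⟩ := Nat.exists_eq_add_of_le hkh
  have hj' : hh p - k = j := by omega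
  rw [hj', hj]
  simp only [eval_mul, eval_C, eval_pow, eval_X, eval_add, eval_one]
  push_cast
  set v : ZMod (p ^ 2) := (t : ZMod (p ^ 2)) with hv
  have h3 : (64 : ZMod (p ^ 2)) ^ j * (1 + v) ^ (3 * j) = 27 ^ j := by
    rw [pow_mul, ← mul_pow]
    congr 1
    linear_combination (16 * (1 + v) ^ 2 + 12 * (1 + v) + 9) * ht
  have h4 : (64 : ZMod (p ^ 2)) ^ k * v ^ (2 * k) = 4 ^ k := by
    rw [pow_mul, ← mul_pow]
    congr 1
    linear_combination (16 * v - 4) * ht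
  have h5 : (16 : ZMod (p ^ 2)) ^ k * 27 ^ k * u ^ k = 4 ^ k := by
    rw [← mul_pow, ← mul_pow]
    congr 1
    linear_combination 4 * hu
  rw [pow_add, pow_add, pow_add]
  linear_combination ((ak k : ZMod (p ^ 2)) * 16 ^ j * (64 ^ k * v ^ (2 * k))) * h3 +
    ((ak k : ZMod (p ^ 2)) * 16 ^ j * 27 ^ j) * h4 -
    ((ak k : ZMod (p ^ 2)) * 16 ^ j * 27 ^ j) * h5

theorem F14_aux_unit (p : ℕ) [Fact p.Prime] (hp : 7 ≤ p) :
    IsUnit ((2 : ZMod (p ^ 2))) := by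
  apply isUnit_of_rd_ne_zero
  have : rd p 2 = 2 := map_ofNat _ 2
  rw [this]
  intro h
  have h2 : ((2 : ℕ) : ZMod p) = 0 := by exact_mod_cast h
  rw [ZMod.natCast_eq_zero_iff] at h2
  have := Nat.le_of_dvd (by norm_num) h2
  omega

theorem F14_aux_qc (p : ℕ) [Fact p.Prime] (a : ℕ) (ha : 0 < a) (hap : a < p) :
    qc p (a : ZMod p) ^ 2 = 1 := by
  have hne : ((a : ℕ) : ZMod p) ≠ 0 := by
    intro h
    rw [ZMod.natCast_eq_zero_iff] at h
    have := Nat.le_of_dvd ha h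
    omega
  unfold qc
  rw [← Int.cast_pow, quadraticChar_sq_one hne, Int.cast_one]

theorem F14 (hVEX : VEX_stmt) (hE14 : E14_stmt) (hSQ : SQ_stmt) (hM1 : M1_stmt) : F14_stmt := by
  intro p _ hp hp3 u hu t ht
  obtain ⟨⟨V, hV⟩, -⟩ := hVEX p (by omega)
  have hE := hE14 p hp hp3 V hV
  obtain ⟨h2, h3⟩ := hSQ p (by omega)
  have hM := hM1 p (by omega)
  set T : ZMod (p ^ 2) := ∑ k ∈ range (hh p + 1), (ak k : ZMod (p ^ 2)) * u ^ k with hT
  have hu2 := F14_aux_unit p hp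
  have q2 : qc p 2 ^ 2 = 1 := by
    have := F14_aux_qc p 2 (by norm_num) (by omega)
    exact_mod_cast this
  have q3 : qc p 3 ^ 2 = 1 := by
    have := F14_aux_qc p 3 (by norm_num) (by omega)
    exact_mod_cast this
  -- evaluate at t
  have e1 : (16 : ℤ) ^ hh p * (St p).eval t = (S1 p).eval t + (p : ℤ) * V.eval t := by
    have := congrArg (fun f : ℤ[X] => f.eval t) hV
    simp only [eval_mul, eval_add, eval_C] at this
    exact this
  have e2 : (16 : ZMod (p ^ 2)) ^ hh p * (((St p).eval t : ℤ) : ZMod (p ^ 2)) =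
      (((S1 p).eval t : ℤ) : ZMod (p ^ 2)) + (p : ZMod (p ^ 2)) * ((V.eval t : ℤ) : ZMod (p ^ 2)) := by
    have := congrArg (Int.cast : ℤ → ZMod (p ^ 2)) e1
    push_cast at this
    exact this
  have h4ne : (4 : ZMod p) ≠ 0 := by
    intro h
    have h2 : ((4 : ℕ) : ZMod p) = 0 := by exact_mod_cast h
    rw [ZMod.natCast_eq_zero_iff] at h2
    have := Nat.le_of_dvd (by norm_num) h2
    omega
  have hc2 : ((t : ℤ) : ZMod p) = -1 / 4 := by
    have := congrArg (rd p) ht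
    rw [map_mul, map_neg, map_one, rd_intCast] at this
    have h4 : rd p 4 = 4 := map_ofNat _ 4
    rw [h4] at this
    rw [eq_div_iff h4ne, mul_comm]
    exact this
  have r1 : (red p V).eval (-1 / 4) = ((V.eval t : ℤ) : ZMod p) := by
    have := F14_aux_red_eval p V t
    rwa [hc2] at this
  have r2 : (Wp p).eval (-1 / 4) = rd p (((S1 p).eval t : ℤ) : ZMod (p ^ 2)) := by
    rw [rd_intCast, ← hM]
    have := F14_aux_red_eval p (S1 p) t
    rwa [hc2] at this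
  have e3 : (p : ZMod (p ^ 2)) * ((V.eval t : ℤ) : ZMod (p ^ 2)) =
      (((S1 p).eval t : ℤ) : ZMod (p ^ 2)) * lp p (3 * Q2 p - 3 / 2 * Q3 p) := by
    rw [← lp_intCast, ← r1, hE, r2, mul_lp]
  rw [e3] at e2
  have e4 := F14_aux_S1 p u hu t ht
  rw [← hT] at e4
  -- the powers
  have h27 : (27 : ZMod (p ^ 2)) ^ hh p = qc p 3 * (1 + lp p (3 / 2 * Q3 p)) := by
    have a1 : (27 : ZMod (p ^ 2)) ^ hh p = ((3 : ZMod (p ^ 2)) ^ hh p) ^ 3 := by
      rw [← pow_mul, mul_comm (hh p) 3, pow_mul]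
      congr 1
      norm_num
    have a3 : lp p (3 / 2 * Q3 p) = 3 * lp p (Q3 p / 2) := by
      rw [mul_lp]
      congr 1
      have : rd p 3 = 3 := map_ofNat _ 3
      rw [this]
      ring
    have a4 := lp_mul_lp (p := p) (Q3 p / 2) (Q3 p / 2)
    rw [a1, h3, a3]
    linear_combination (qc p 3 * (1 + 3 * lp p (Q3 p / 2))) * q3 +
      (qc p 3 ^ 3 * (3 + lp p (Q3 p / 2))) * a4
  have h64 : (64 : ZMod (p ^ 2)) ^ hh p = 1 + lp p (3 * Q2 p) := by
    have a1 : (64 : ZMod (p ^ 2)) ^ hh p = (((2 : ZMod (p ^ 2)) ^ hh p) ^ 2) ^ 3 := by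
      rw [← pow_mul, ← pow_mul, mul_comm (hh p) (2 * 3), pow_mul]
      congr 1
      norm_num
    have a3 : lp p (3 * Q2 p) = 6 * lp p (Q2 p / 2) := by
      rw [mul_lp]
      congr 1
      have : rd p 6 = 6 := map_ofNat _ 6
      rw [this]
      have h2ne : (2 : ZMod p) ≠ 0 := by
        intro h
        apply h4ne
        have : (4 : ZMod p) = 2 * 2 := by norm_num
        rw [this, h, mul_zero]
      field_simp
      ring
    have a4 := lp_mul_lp (p := p) (Q2 p / 2) (Q2 p / 2)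
    have a5 : ((2 : ZMod (p ^ 2)) ^ hh p) ^ 2 = 1 + 2 * lp p (Q2 p / 2) := by
      rw [h2]
      linear_combination (1 + lp p (Q2 p / 2)) ^ 2 * q2 + a4
    rw [a1, a5, a3]
    linear_combination (12 + 8 * lp p (Q2 p / 2)) * a4
  have h16 : IsUnit ((16 : ZMod (p ^ 2)) ^ hh p * 64 ^ hh p) := by
    have b1 : (16 : ZMod (p ^ 2)) = 2 ^ 4 := by norm_num
    have b2 : (64 : ZMod (p ^ 2)) = 2 ^ 6 := by norm_num
    rw [b1, b2]
    exact ((hu2.pow 4).pow _).mul ((hu2.pow 6).pow _)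
  have c1 : lp p (3 * Q2 p - 3 / 2 * Q3 p) = lp p (3 * Q2 p) - lp p (3 / 2 * Q3 p) := lp_sub _ _
  have c2 := lp_mul_lp (p := p) (3 / 2 * Q3 p) (3 / 2 * Q3 p)
  have c3 := lp_mul_lp (p := p) (3 / 2 * Q3 p) (3 * Q2 p)
  rw [c1] at e2
  apply h16.mul_left_cancel
  have e5 : (16 : ZMod (p ^ 2)) ^ hh p * 64 ^ hh p * (((St p).eval t : ℤ) : ZMod (p ^ 2)) =
      16 ^ hh p * 27 ^ hh p * T * (1 + (lp p (3 * Q2 p) - lp p (3 / 2 * Q3 p))) := by
    linear_combination (64 : ZMod (p ^ 2)) ^ hh p * e2 +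
      (1 + (lp p (3 * Q2 p) - lp p (3 / 2 * Q3 p))) * e4
  rw [e5, h27, h64]
  linear_combination (16 : ZMod (p ^ 2)) ^ hh p * qc p 3 * T * (c3 - c2)

end Pool.Agent.helper60.DA
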